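import Pool.Agent.P.MP_bc3e0b_gt.Caps.Limit

set_option autoImplicit false

namespace Pool.Agent.Results.MP_bc3e0b_gt.Caps

/-- Among all choices of `d + 1` unit normals in dimension `d ≥ 3`, the vertices of a regular
simplex give the set `{x | ⟪a i, x⟫ ≤ θ ‖x‖ for all i}` the least measure, for every
rotation invariant measure and every threshold depending on the radius only. -/
theorem result (d : ℕ) (hd : 3 ≤ d) (a b : Fin (d + 1) → EuclideanSpace ℝ (Fin d))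
    (ha : ∀ i, ‖a i‖ = 1) (hb : ∀ i, ‖b i‖ = 1)
    (hreg : ∀ i j, i ≠ j → inner ℝ (b i) (b j) = (-1 : ℝ) / (d : ℝ))
    (μ : MeasureTheory.Measure (EuclideanSpace ℝ (Fin d))) [MeasureTheory.SFinite μ]
    (hμ : ∀ T : EuclideanSpace ℝ (Fin d) ≃ₗᵢ[ℝ] EuclideanSpace ℝ (Fin d), μ.map T = μ)
    (θ : ℝ → ℝ) (hθ : Measurable θ) :
    μ {x | ∀ i, inner ℝ (b i) x ≤ θ ‖x‖} ≤ μ {x | ∀ i, inner ℝ (a i) x ≤ θ ‖x‖} :=
  Pool.Agent.P.MP_bc3e0b_gt.Caps.caps hd ha hb hreg μ hμ hθ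

end Pool.Agent.Results.MP_bc3e0b_gt.Caps
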