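import Pool.Agent.P.MP_bc3e0b_gt.St.Sph

set_option autoImplicit false

namespace Pool.Agent.Results.MP_bc3e0b_gt.Stable

/-- Quadratic stability of the regular simplex among spherical and hyperbolic simplices
circumscribed about a ball: the volume excess is at least a constant, depending on the dimension
and the radius only, times the squared distance of the Gram matrices of the facet normals. -/
theorem result (d : ℕ) (hd : 3 ≤ d) :
    (∀ r : ℝ, 0 < r → r < Real.pi / 2 → ∃ κ : ℝ, 0 < κ ∧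
      ∀ (c : EuclideanSpace ℝ (Fin (d + 1)))
        (n m : Fin (d + 1) → EuclideanSpace ℝ (Fin (d + 1))),
        ‖c‖ = 1 → (∀ i, ‖n i‖ = 1) → (∀ i, ‖m i‖ = 1) →
        (∀ i, inner ℝ (n i) c = Real.sin r) →
        (∀ i, inner ℝ (m i) c = Real.sin r) →
        LinearIndependent ℝ m →
        (∀ i j k l, i ≠ j → k ≠ l → inner ℝ (m i) (m j) = inner ℝ (m k) (m l)) →
        MeasureTheory.Measure.hausdorffMeasure (d : ℝ)
            {x : EuclideanSpace ℝ (Fin (d + 1)) | ‖x‖ = 1 ∧ ∀ i, 0 ≤ inner ℝ (m i) x}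
          + ENNReal.ofReal (κ * ∑ i, ∑ j, (inner ℝ (n i) (n j) - inner ℝ (m i) (m j)) ^ 2)
          ≤ MeasureTheory.Measure.hausdorffMeasure (d : ℝ)
            {x : EuclideanSpace ℝ (Fin (d + 1)) | ‖x‖ = 1 ∧ ∀ i, 0 ≤ inner ℝ (n i) x}) ∧
    (∀ ρ : ℝ, 0 < ρ → (d : ℝ) * ρ < 1 → ∃ κ : ℝ, 0 < κ ∧
      ∀ (a b : Fin (d + 1) → EuclideanSpace ℝ (Fin d)),
        (∀ i, ‖a i‖ = 1) → (∀ i, ‖b i‖ = 1) →
        (∀ i j, i ≠ j → inner ℝ (b i) (b j) = (-1 : ℝ) / (d : ℝ)) →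
        (∫⁻ x in {x : EuclideanSpace ℝ (Fin d) | ∀ i, inner ℝ (b i) x ≤ ρ} ∩ Metric.ball 0 1,
            ENNReal.ofReal ((1 - ‖x‖ ^ 2) ^ (-(((d : ℝ) + 1) / 2))))
          + ENNReal.ofReal (κ * ∑ i, ∑ j, (inner ℝ (a i) (a j) - inner ℝ (b i) (b j)) ^ 2)
          ≤ ∫⁻ x in {x : EuclideanSpace ℝ (Fin d) | ∀ i, inner ℝ (a i) x ≤ ρ} ∩ Metric.ball 0 1,
            ENNReal.ofReal ((1 - ‖x‖ ^ 2) ^ (-(((d : ℝ) + 1) / 2)))) :=
  ⟨fun _ h0 h1 => Pool.Agent.P.MP_bc3e0b_gt.St.sph hd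
      (Real.sin_pos_of_pos_of_lt_pi h0 (by linarith [Real.pi_pos]))
      (Real.cos_pos_of_mem_Ioo ⟨by linarith [Real.pi_pos], h1⟩) (Real.sin_sq_add_cos_sq _),
    fun _ h0 h1 => Pool.Agent.P.MP_bc3e0b_gt.St.hyp hd h0 h1 (by positivity)⟩

end Pool.Agent.Results.MP_bc3e0b_gt.Stable
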